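import Pool.Agent.Q95.LR3
import Mathlib.NumberTheory.LegendreSymbol.QuadraticReciprocity

/-!
# The fields generated by `π` and the values of `Γ` at the primitive fractions of denominator `q`

Let `q = p ^ k d` with `p` prime, `p ∤ d`, and let `H` be the group generated by `p` modulo `d`. By the
multiplication formulas of orders `p ^ k` and `p ^ (k - 1)` the product of all `Γ(a/q)`, `a` prime to
`q` and congruent modulo `d` to an element of a fixed coset of `H`, is algebraic over `ℚ(π)`. If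
`-1 ∉ H` these relations do not follow from the reflection formula. For `q = 14` this is
`Γ(1/14) Γ(9/14) Γ(11/14) = 4 π ^ (3/2)`. If there is no such `p`, then the values at all fractions
of denominator `q` are algebraic over `F_q`.
-/

set_option autoImplicit false

namespace Pool.Agent.Results.MP_274814_nt.PrimitiveFractions

open IntermediateField

/-- The field `F_q` of the problem, generated over `ℚ` by `π` and the numbers `Γ(a/q)`,
`1 ≤ a ≤ q - 1`, `gcd(a, q) = 1`. -/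
noncomputable def F (q : ℕ) : IntermediateField ℚ ℂ :=
  adjoin ℚ ({(Real.pi : ℂ)} ∪ {x | ∃ a : ℕ, 1 ≤ a ∧ a ≤ q - 1 ∧ Nat.Coprime a q ∧
    x = Complex.Gamma (a / q)})

/-- The field generated over `ℚ` by `π` and all numbers `Γ(a/q)`, `1 ≤ a ≤ q - 1`. -/
noncomputable def G (q : ℕ) : IntermediateField ℚ ℂ :=
  adjoin ℚ ({(Real.pi : ℂ)} ∪ {x | ∃ a : ℕ, 1 ≤ a ∧ a ≤ q - 1 ∧ x = Complex.Gamma (a / q)})

/-- There is a prime `p` such that, for the decomposition `q = p ^ k d` with `k ≥ 1` and `p ∤ d`, one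
has `d > 2` and no power of `p` is congruent to `-1` modulo `d`. -/
def Obstructed (q : ℕ) : Prop :=
  ∃ p k d : ℕ, p.Prime ∧ 1 ≤ k ∧ ¬ p ∣ d ∧ q = p ^ k * d ∧ 2 < d ∧ ∀ j : ℕ, ¬ d ∣ p ^ j + 1

/-- The general bound. -/
theorem bound {p k d : ℕ} (hp : p.Prime) (hk : 1 ≤ k) (hd : 2 < d) (hpd : ¬ p ∣ d)
    (hH : ∀ j : ℕ, ¬ d ∣ p ^ j + 1) :
    0 < Nat.totient d / (2 * orderOf (p : ZMod d)) ∧
    Algebra.trdeg ℚ (F (p ^ k * d)) + (Nat.totient d / (2 * orderOf (p : ZMod d)) : ℕ) ≤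
      ((1 + Nat.totient (p ^ k * d) / 2 : ℕ) : Cardinal) := by
  obtain ⟨k, rfl⟩ : ∃ k', k = k' + 1 := ⟨k - 1, by omega⟩
  obtain ⟨h1, h2, h3⟩ := Pool.Agent.Q95.LR.main (k := k) hp hpd hd hH
  refine ⟨h1, ?_⟩
  have h4 := add_le_add_left h3 ((Nat.totient d / (2 * orderOf (p : ZMod d)) : ℕ) : Cardinal)
  have h5 : ((1 + Nat.totient (p ^ (k + 1) * d) / 2 - Nat.totient d / (2 * orderOf (p : ZMod d)) : ℕ) :
      Cardinal) + ((Nat.totient d / (2 * orderOf (p : ZMod d)) : ℕ) : Cardinal) =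
      ((1 + Nat.totient (p ^ (k + 1) * d) / 2 : ℕ) : Cardinal) := by
    rw [← Nat.cast_add]
    congr 1
    omega
  rw [h5] at h4
  exact h4

theorem fails {p k d : ℕ} (hp : p.Prime) (hk : 1 ≤ k) (hd : 2 < d) (hpd : ¬ p ∣ d)
    (hH : ∀ j : ℕ, ¬ d ∣ p ^ j + 1) :
    Algebra.trdeg ℚ (F (p ^ k * d)) ≤ ((Nat.totient (p ^ k * d) / 2 : ℕ) : Cardinal) := by
  obtain ⟨h1, h2⟩ := bound hp hk hd hpd hH
  have h3 : (1 : Cardinal) ≤ ((Nat.totient d / (2 * orderOf (p : ZMod d)) : ℕ) : Cardinal) := by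
    exact_mod_cast h1
  have h4 : Algebra.trdeg ℚ (F (p ^ k * d)) + 1 ≤
      ((Nat.totient (p ^ k * d) / 2 : ℕ) : Cardinal) + 1 := by
    refine (add_le_add_right h3 _).trans (h2.trans ?_)
    rw [Nat.cast_add, Nat.cast_one, add_comm]
  exact Cardinal.add_one_le_add_one_iff.1 h4

theorem two_primes {q p l : ℕ} (hq : 0 < q) (hp : p.Prime) (hl : l.Prime) (hne : p ≠ l)
    (hl3 : l % 4 = 3) (hpq : p ∣ q) (hlq : l ∣ q) (hsq : IsSquare (p : ZMod l)) :
    Algebra.trdeg ℚ (F q) ≤ ((Nat.totient q / 2 : ℕ) : Cardinal) := by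
  have : Fact l.Prime := ⟨hl⟩
  have h1 : p ^ q.factorization p * (q / p ^ q.factorization p) = q := Nat.ordProj_mul_ordCompl_eq_self q p
  have hld : l ∣ q / p ^ q.factorization p := by
    have h2 : l ∣ p ^ q.factorization p * (q / p ^ q.factorization p) := by rw [h1]; exact hlq
    exact (Nat.Coprime.pow_right _ ((Nat.coprime_primes hl hp).2 hne.symm)).dvd_of_dvd_mul_left h2
  have hdpos : 0 < q / p ^ q.factorization p := Nat.pos_of_ne_zero (by
    intro h
    rw [h, mul_zero] at h1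
    omega)
  have hd : 2 < q / p ^ q.factorization p := by
    have := Nat.le_of_dvd hdpos hld
    have : 3 ≤ l := by omega
    omega
  have h2 := fails (k := q.factorization p) hp
    (Nat.pos_of_ne_zero ((Nat.Prime.factorization_pos_of_dvd hp hq.ne' hpq).ne')) hd
    (Nat.not_dvd_ordCompl hp hq.ne') (by
      intro j hj
      have h3 : l ∣ p ^ j + 1 := hld.trans hj
      have h4 : ((p : ZMod l)) ^ j = -1 := by
        have h5 : ((p ^ j + 1 : ℕ) : ZMod l) = 0 := (ZMod.natCast_eq_zero_iff _ _).2 h3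
        push_cast at h5
        exact eq_neg_of_add_eq_zero_left h5
      have h6 : IsSquare (-1 : ZMod l) := by
        rw [← h4]
        exact hsq.pow j
      exact ZMod.exists_sq_eq_neg_one_iff.1 h6 hl3)
  rw [h1] at h2
  exact h2

theorem good_of_not {q : ℕ} (hq : 2 < q) (h : ¬ Obstructed q) : Pool.Agent.Q95.LR.Good q := by
  intro p hp hpq hd
  by_contra hcon
  push Not at hcon
  exact h ⟨p, q.factorization p, q / p ^ q.factorization p, hp,
    Nat.pos_of_ne_zero ((Nat.Prime.factorization_pos_of_dvd hp (by omega) hpq).ne'),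
    Nat.not_dvd_ordCompl hp (by omega), (Nat.ordProj_mul_ordCompl_eq_self q p).symm, hd, hcon⟩

/-- **The inequality of Q1 holds for `q` if and only if `q` is not obstructed and the inequality holds
for the field generated by `π` and all `Γ(a/q)`.** It is false for `q = 14`, for every `q` with two
different prime factors congruent to `3` modulo `4`, and for all obstructed `q = p ^ k d`; in the
last case the transcendence degree of `F_q` is at most `1 + φ(q)/2 - φ(d)/(2 f)`, `f` the order of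
`p` modulo `d`. -/
theorem result :
    (∀ q : ℕ, 2 < q → (((1 + Nat.totient q / 2 : ℕ) : Cardinal) ≤ Algebra.trdeg ℚ (F q) ↔
      ¬ Obstructed q ∧ ((1 + Nat.totient q / 2 : ℕ) : Cardinal) ≤ Algebra.trdeg ℚ (G q))) ∧
    (Obstructed 14 ∧ Algebra.trdeg ℚ (F 14) ≤ ((Nat.totient 14 / 2 : ℕ) : Cardinal)) ∧
    (∀ q l l' : ℕ, 0 < q → l.Prime → l'.Prime → l ≠ l' → l % 4 = 3 → l' % 4 = 3 → l ∣ q → l' ∣ q →
      Algebra.trdeg ℚ (F q) ≤ ((Nat.totient q / 2 : ℕ) : Cardinal)) ∧
    ∀ p k d : ℕ, p.Prime → 1 ≤ k → 2 < d → ¬ p ∣ d → (∀ j : ℕ, ¬ d ∣ p ^ j + 1) →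
      1 ≤ Nat.totient d / (2 * orderOf (p : ZMod d)) ∧
      Algebra.trdeg ℚ (F (p ^ k * d)) + (Nat.totient d / (2 * orderOf (p : ZMod d)) : ℕ) ≤
        ((1 + Nat.totient (p ^ k * d) / 2 : ℕ) : Cardinal) := by
  have h7 : ∀ j : ℕ, ¬ 7 ∣ 2 ^ j + 1 := by
    intro j hj
    have h1 : (2 ^ j + 1) % 7 = (2 ^ (j % 3) + 1) % 7 := by
      conv_lhs => rw [← Nat.div_add_mod j 3, pow_add, pow_mul]
      rw [Nat.add_mod, Nat.mul_mod, Nat.pow_mod]
      norm_num
    have h2 : j % 3 < 3 := Nat.mod_lt _ (by norm_num)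
    have h3 := Nat.mod_eq_zero_of_dvd hj
    rw [h1] at h3
    interval_cases (j % 3) <;> norm_num at h3
  refine ⟨fun q hq => ?_, ⟨⟨2, 1, 7, Nat.prime_two, le_rfl, by norm_num, by norm_num, by norm_num,
    h7⟩, ?_⟩, ?_, fun p k d hp hk hd hpd hH => bound hp hk hd hpd hH⟩
  · constructor
    · intro h
      refine ⟨?_, ?_⟩
      · rintro ⟨p, k, d, hp, hk, hpd, rfl, hd, hH⟩
        have h1 := h.trans (fails hp hk hd hpd hH)
        have h2 : 1 + Nat.totient (p ^ k * d) / 2 ≤ Nat.totient (p ^ k * d) / 2 := by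
          exact_mod_cast h1
        omega
      · refine h.trans ?_
        exact trdeg_le_of_injective (inclusion (Pool.Agent.Q95.LR.gamma_le_full q))
          (inclusion (Pool.Agent.Q95.LR.gamma_le_full q)).injective
    · rintro ⟨h1, h2⟩
      have h3 := Pool.Agent.Q95.LR.trdeg_eq hq (good_of_not hq h1)
      exact h2.trans h3.symm.le
  · have h := fails (p := 2) (k := 1) (d := 7) Nat.prime_two le_rfl (by norm_num) (by norm_num) h7
    simpa using h
  · intro q l l' hq hl hl' hne h3 h3' hlq hlq'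
    have : Fact l.Prime := ⟨hl⟩
    have : Fact l'.Prime := ⟨hl'⟩
    have hrec := ZMod.exists_sq_eq_prime_iff_of_mod_four_eq_three h3 h3' hne
    by_cases h : IsSquare (l' : ZMod l)
    · exact two_primes hq hl' hl hne.symm h3 hlq' hlq h
    · exact two_primes hq hl hl' hne h3' hlq hlq' (by
        by_contra h4
        exact h (hrec.2 h4))

end Pool.Agent.Results.MP_274814_nt.PrimitiveFractions
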